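import Pool.Agent.Helper34.FB.Goals

/-!
# Project FB, packet FB-U
-/

set_option autoImplicit false

namespace Pool.Agent.Helper19.FB

open Pool.Agent.Helper34.FB

universe u v

section

variable {R : Type u} [CommRing R] {W : Type v} [AddCommGroup W] [Module R W] {ι : Type}

/-- functions which are sums of multiples of products of `m` letters `K` -/
inductive KK (R : Type u) [CommRing R] [Module R W] (K : ι → W →+ W) : ℕ → (W → W) → Prop
  | id : KK R K 0 (fun y => y)
  | smul (g : R) {m : ℕ} {κ : W → W} (h : KK R K m κ) : KK R K m (fun y => g • κ y)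
  | add {m : ℕ} {κ κ' : W → W} (h : KK R K m κ) (h' : KK R K m κ') :
      KK R K m (fun y => κ y + κ' y)
  | step (a : ι) {m : ℕ} {κ : W → W} (h : KK R K m κ) : KK R K (m + 1) (fun y => K a (κ y))

theorem KK.gr {K : ι → W →+ W} {gr : ℕ → Submodule R W}
    (hK : ∀ k i, ∀ y ∈ gr i, K k y ∈ gr (i + 1)) {m : ℕ} {κ : W → W} (h : KK R K m κ) :
    ∀ i, ∀ y ∈ gr i, κ y ∈ gr (i + m) := by
  induction h with
  | id => intro i y hy; simpa using hy
  | smul g _ ih => intro i y hy; exact (gr _).smul_mem _ (ih i y hy)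
  | add _ _ ih ih' => intro i y hy; exact (gr _).add_mem (ih i y hy) (ih' i y hy)
  | step a _ ih => intro i y hy; exact hK a _ _ (ih i y hy)

theorem KK.hp {K : ι → W →+ W} (s : ℕ) (f : Fin s → ι) :
    KK R K s (fun y => hp s (fun k => K (f k)) y) := by
  induction s with
  | zero => exact KK.id
  | succ s ih =>
    have := KK.step (R := R) (K := K) (f 0) (ih fun k => f k.succ)
    exact this

theorem KK.comm {K : ι → W →+ W} {J : Type} {D : J → W →ₗ[R] W} {cK : ι → J → R}
    (hK : ∀ k j y, D j (K k y) + K k (D j y) = cK k j • y) {m : ℕ} {κ : W → W}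
    (h : KK R K m κ) (j : J) : ∃ κ' : W → W,
      (∀ y, κ (D j y) = ((-1 : ℤ) ^ m) • D j (κ y) + κ' y) ∧
      (∀ m', m = m' + 1 → KK R K m' κ') ∧ (m = 0 → ∀ y, κ' y = 0) := by
  induction h with
  | id => exact ⟨fun _ => 0, fun y => by simp, fun m' h => by omega, fun _ _ => rfl⟩
  | @smul g m κ hκ ih =>
    obtain ⟨κ', h1, h2, h3⟩ := ih
    refine ⟨fun y => g • κ' y, fun y => ?_, fun m' h => KK.smul g (h2 m' h), fun h y => ?_⟩
    · simp only [h1 y, smul_add, map_smul]
      rw [smul_comm]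
    · simp [h3 h y]
  | @add m κ₁ κ₂ hκ hκ' ih ih' =>
    obtain ⟨κ', h1, h2, h3⟩ := ih
    obtain ⟨κ'', h1', h2', h3'⟩ := ih'
    refine ⟨fun y => κ' y + κ'' y, fun y => ?_, fun m' h => KK.add (h2 m' h) (h2' m' h),
      fun h y => ?_⟩
    · simp only [h1 y, h1' y, map_add, smul_add]
      abel
    · simp [h3 h y, h3' h y]
  | @step a m κ hκ ih =>
    obtain ⟨κ', h1, h2, h3⟩ := ih
    have e1 : ∀ y, K a (κ (D j y)) = ((-1 : ℤ) ^ (m + 1)) • D j (K a (κ y)) +
        ((((-1 : ℤ) ^ m : ℤ) : R) • (cK a j • κ y) + K a (κ' y)) := by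
      intro y
      have h4 : K a (D j (κ y)) = cK a j • κ y - D j (K a (κ y)) := by
        rw [← hK a j (κ y)]
        abel
      rw [h1 y, map_add, map_zsmul, h4, Int.cast_smul_eq_zsmul, pow_succ, mul_neg_one, neg_smul,
        smul_sub]
      abel
    rcases Nat.eq_zero_or_pos m with hm | hm
    · refine ⟨fun y => (((-1 : ℤ) ^ m : ℤ) : R) • (cK a j • κ y), fun y => ?_, fun m' h => ?_,
        fun h => by omega⟩
      · show K a (κ (D j y)) = ((-1 : ℤ) ^ (m + 1)) • D j (K a (κ y)) +
          ((((-1 : ℤ) ^ m : ℤ) : R) • (cK a j • κ y))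
        rw [e1 y, h3 hm y, map_zero, add_zero]
      · obtain rfl : m = m' := by omega
        exact KK.smul _ (KK.smul _ hκ)
    · obtain ⟨m₀, rfl⟩ : ∃ m₀, m = m₀ + 1 := ⟨m - 1, by omega⟩
      refine ⟨fun y => (((-1 : ℤ) ^ (m₀ + 1) : ℤ) : R) • (cK a j • κ y) + K a (κ' y), e1,
        fun m' h => ?_, fun h => by omega⟩
      obtain rfl : m₀ + 1 = m' := by omega
      exact KK.add (KK.smul _ (KK.smul _ hκ)) (KK.step a (h2 m₀ rfl))

/-- the letters `h` -/
theorem hcomm {gr : ℕ → Submodule R W} {t1 t2 : R} {J : Type} {D : J → W →ₗ[R] W} (j : J)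
    (n : ℕ) (h : Fin n → W →+ W) (c1 c2 : Fin n → J → R)
    (hgr : ∀ k i, ∀ y ∈ gr i, h k y ∈ gr (i + 1))
    (hD : ∀ k j y, D j (h k y) + h k (D j y) = (t1 * c1 k j + t2 * c2 k j) • y)
    (ht : ∀ k i, ∀ a ∈ gr i, ∀ b ∈ gr i, ∃ a' ∈ gr (i + 1), ∃ b' ∈ gr (i + 1),
      h k (t1 • a + t2 • b) = t1 • a' + t2 • b') (q : ℕ) (y : W) (hy : y ∈ gr (q + 1)) :
    hp n h y ∈ gr (q + 1 + n) ∧ ∃ a ∈ gr (q + n), ∃ b ∈ gr (q + n),
      hp n h (D j y) = ((-1 : ℤ) ^ n) • D j (hp n h y) + (t1 • a + t2 • b) := by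
  induction n with
  | zero =>
    refine ⟨by simpa [hp] using hy, 0, zero_mem _, 0, zero_mem _, ?_⟩
    simp [hp]
  | succ n ih =>
    obtain ⟨h1, a, ha, b, hb, h2⟩ := ih (fun i => h i.succ) (fun i => c1 i.succ)
      (fun i => c2 i.succ) (fun k => hgr k.succ) (fun k => hD k.succ) (fun k => ht k.succ)
    set Y := hp n (fun i => h i.succ) y with hY
    obtain ⟨a', ha', b', hb', h3⟩ := ht 0 _ a ha b hb
    have e0 : ∀ x, hp (n + 1) h x = h 0 (hp n (fun i => h i.succ) x) := fun x => rfl
    refine ⟨hgr 0 _ _ h1, ((((-1 : ℤ) ^ n : ℤ) : R) * c1 0 j) • Y + a',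
      (gr _).add_mem ((gr _).smul_mem _ ?_) ha', ((((-1 : ℤ) ^ n : ℤ) : R) * c2 0 j) • Y + b',
      (gr _).add_mem ((gr _).smul_mem _ ?_) hb', ?_⟩
    · have : q + (n + 1) = q + 1 + n := by omega
      rw [this]
      exact h1
    · have : q + (n + 1) = q + 1 + n := by omega
      rw [this]
      exact h1
    · have h4 : h 0 (D j Y) = (t1 * c1 0 j + t2 * c2 0 j) • Y - D j (h 0 Y) := by
        rw [← hD 0 j Y]
        abel
      rw [e0, e0, h2, map_add, map_zsmul, h4, h3, ← hY, pow_succ, mul_neg_one, neg_smul, smul_sub,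
        ← Int.cast_smul_eq_zsmul R ((-1) ^ n) ((t1 * c1 0 j + t2 * c2 0 j) • Y)]
      simp only [smul_add, add_smul, mul_smul]
      rw [smul_comm (((-1 : ℤ) ^ n : ℤ) : R) t1, smul_comm (((-1 : ℤ) ^ n : ℤ) : R) t2]
      abel

end

/-- Packet FB-U. -/
theorem gU : G_U.{u, v} := by
  intro R _ t1 t2 J _ f1 f2 p S W' _ n s hns Hh h K c1 c2 cK hgr hKgr hD hKD ht hH i hi z hz L
  -- words
  have hw : ∀ (L : List J) (i : ℕ) (z : S.W), z ∈ S.gr i →
      (L.length ≤ i → L.foldr (fun j y => S.D j y) z ∈ S.gr (i - L.length)) ∧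
      (i < L.length → L.foldr (fun j y => S.D j y) z = 0) := by
    intro L
    induction L with
    | nil => intro i z hz; exact ⟨fun _ => by simpa using hz, fun h => by simp at h⟩
    | cons j L ih =>
      intro i z hz
      obtain ⟨h1, h2⟩ := ih i z hz
      rw [List.foldr_cons, List.length_cons]
      refine ⟨fun hl => ?_, fun hl => ?_⟩
      · have h3 := h1 (by omega)
        have h4 : i - L.length = (i - (L.length + 1)) + 1 := by omega
        rw [h4] at h3
        exact S.D_gr j _ _ h3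
      · rcases Nat.lt_or_ge i L.length with h3 | h3
        · rw [h2 h3, map_zero]
        · have h4 := h1 h3
          have h5 : i - L.length = 0 := by omega
          rw [h5] at h4
          exact S.D_zero j _ h4
  -- (q)
  have hq : ∀ (j : J) (y : S.W), y ∈ S.gr (s + 1) → Hh (hp n h (S.D j y)) = 0 := by
    intro j y hy
    obtain ⟨h1, a, ha, b, hb, h2⟩ := hcomm j n h c1 c2 hgr hD ht s y hy
    have h3 : hp n h y = 0 := S.gr_top _ (by omega) _ h1
    have h4 : s + n = p := by omega
    rw [h4] at ha hb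
    rw [h2, h3, map_zero, smul_zero, zero_add]
    exact hH a ha b hb
  -- the main induction
  have main : ∀ (m : ℕ) (κ : S.W → S.W), KK R K m κ → ∀ (i : ℕ) (z : S.W) (L : List J),
      z ∈ S.gr i → L.length + s = i + m → m < L.length →
      Hh (hp n h (κ (L.foldr (fun j y => S.D j y) z))) = 0 := by
    intro m
    induction m with
    | zero =>
      intro κ hκ i z L hz hL hm
      cases L with
      | nil => simp at hm
      | cons j L =>
        obtain ⟨κ', h1, -, h3⟩ := hκ.comm hKD j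
        rw [List.length_cons] at hL hm
        rw [List.foldr_cons, h1, h3 rfl, add_zero, map_zsmul, map_zsmul]
        have h4 := (hw L i z hz).1 (by omega)
        have h5 : i - L.length = s + 1 := by omega
        rw [h5] at h4
        have h6 := hκ.gr hKgr _ _ h4
        rw [add_zero] at h6
        rw [hq j _ h6, smul_zero]
    | succ m ih =>
      intro κ hκ i z L hz hL hm
      cases L with
      | nil => simp at hm
      | cons j L =>
        obtain ⟨κ', h1, h2, -⟩ := hκ.comm hKD j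
        rw [List.length_cons] at hL hm
        rw [List.foldr_cons, h1, map_add, map_add, map_zsmul, map_zsmul,
          ih κ' (h2 m rfl) i z L hz (by omega) (by omega), add_zero]
        rcases Nat.lt_or_ge i L.length with h3 | h3
        · have h4 := (hw L i z hz).2 h3
          rw [h4]
          have h5 : κ 0 ∈ S.gr (p + 1 + (m + 1)) := hκ.gr hKgr _ _ (zero_mem _)
          rw [S.gr_top _ (by omega) _ h5]
          simp
        · have h4 := (hw L i z hz).1 h3
          have h6 := hκ.gr hKgr _ _ h4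
          have h5 : i - L.length + (m + 1) = s + 1 := by omega
          rw [h5] at h6
          rw [hq j _ h6, smul_zero]
  have hκ : KK R K s (fun y => hp s K y) := KK.hp s (fun k => k)
  rcases Nat.lt_trichotomy L.length i with hl | hl | hl
  · have h1 := (hw L i z hz).1 hl.le
    have h2 := hκ.gr hKgr _ _ h1
    have h3 : hp n h (hp s K (L.foldr (fun j y => S.D j y) z)) ∈
        S.gr (i - L.length + s + n) := (KK.hp (R := R) (K := h) n (fun k => k)).gr hgr _ _ h2
    rw [S.gr_top _ (by omega) _ h3, map_zero]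
  · exact main s _ hκ i z L hz (by omega) (by omega)
  · rw [(hw L i z hz).2 hl, map_zero, map_zero, map_zero]

end Pool.Agent.Helper19.FB
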